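import Pool.Agent.X26.LF.Stm

set_option autoImplicit false

namespace Pool.Agent.X121.LF

open Finset Pool.Agent.X26.LF

open Classical in
theorem t_STG : S_STG := by
  intro hSM hBAD hCNT m p N _ u v A U hm hNP hF h1 h2
  let good : (Fin N → ZMod p) → ZMod p → Prop := fun x s =>
    ∃ ι : Fin m ↪ Fin N, ∑ j, (u j : ZMod p) * x (ι j) = s ∧ ∀ j, ¬ Bad v p A x (ι j)
  have hp : 0 < p := (Fact.out : p.Prime).pos
  -- for every s
  have key : ∀ s, 4 * (univ.filter fun x : Fin N → ZMod p => ¬ good x s).card ≤ p ^ N := by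
    intro s
    have a1 := hSM m p N (fun j => (u j : ZMod p)) s hm hNP.1 h1
    have a2 := hBAD hCNT m p N u v A s hm hNP hF
    have a3 : 8 * (univ.filter fun x : Fin N → ZMod p => ∃ ι : Fin m ↪ Fin N,
        ∑ j, (u j : ZMod p) * x (ι j) = s ∧ ∃ j, Bad v p A x (ι j)).card ≤ p ^ N := by
      have a4 : p ^ 2 * (8 * (univ.filter fun x : Fin N → ZMod p => ∃ ι : Fin m ↪ Fin N,
        ∑ j, (u j : ZMod p) * x (ι j) = s ∧ ∃ j, Bad v p A x (ι j)).card) ≤ p ^ 2 * p ^ N := by
        calc _ = 8 * (p ^ 2 * (univ.filter fun x : Fin N → ZMod p => ∃ ι : Fin m ↪ Fin N,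
            ∑ j, (u j : ZMod p) * x (ι j) = s ∧ ∃ j, Bad v p A x (ι j)).card) := by ring
          _ ≤ 8 * (m ^ 2 * 4 ^ m * (A.card + N) ^ (2 * m - 1) * p ^ N) := Nat.mul_le_mul_left _ a2
          _ = 8 * (m ^ 2 * 4 ^ m * (A.card + N) ^ (2 * m - 1)) * p ^ N := by ring
          _ ≤ p ^ 2 * p ^ N := Nat.mul_le_mul_right _ h2
      exact Nat.le_of_mul_le_mul_left a4 (by positivity)
    have a5 : (univ.filter fun x : Fin N → ZMod p => ¬ good x s) ⊆
        (univ.filter fun x : Fin N → ZMod p =>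
          ¬ ∃ ι : Fin m ↪ Fin N, ∑ j, (u j : ZMod p) * x (ι j) = s) ∪
        (univ.filter fun x : Fin N → ZMod p => ∃ ι : Fin m ↪ Fin N,
          ∑ j, (u j : ZMod p) * x (ι j) = s ∧ ∃ j, Bad v p A x (ι j)) := by
      intro x hx
      simp only [mem_filter, mem_univ, true_and, mem_union] at hx ⊢
      by_contra hcon
      push Not at hcon
      obtain ⟨⟨ι, hι⟩, hb⟩ := hcon
      exact hx ⟨ι, hι, hb ι hι⟩
    have a6 := (card_le_card a5).trans (card_union_le _ _)
    omega
  -- averaging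
  have hcard : (univ : Finset (Fin N → ZMod p)).card = p ^ N := by
    rw [card_univ, Fintype.card_fun, ZMod.card, Fintype.card_fin]
  have hsum : ∑ x : Fin N → ZMod p, 4 * (U.filter fun s => ¬ good x s).card
      ≤ ∑ _x : Fin N → ZMod p, U.card := by
    have b1 : ∑ x : Fin N → ZMod p, (U.filter fun s => ¬ good x s).card
        = ∑ s ∈ U, (univ.filter fun x : Fin N → ZMod p => ¬ good x s).card := by
      simp_rw [card_filter]
      exact sum_comm
    rw [← mul_sum, b1, mul_sum, sum_const, hcard, smul_eq_mul, mul_comm (p ^ N)]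
    calc _ ≤ ∑ _s ∈ U, p ^ N := sum_le_sum fun s _ => key s
      _ = U.card * p ^ N := by rw [sum_const, smul_eq_mul]
  obtain ⟨x, -, hx⟩ := exists_le_of_sum_le (univ_nonempty) hsum
  refine ⟨(univ.filter fun i : Fin N => ¬ Bad v p A x i).image x, ?_, ?_, ?_⟩
  · refine card_image_le.trans ((card_le_univ _).trans ?_)
    rw [Fintype.card_fin]
  · -- Free
    intro K a ha hsum1
    by_cases hL : ∀ k ∈ K, a k ∈ A
    · exact hF K a hL hsum1
    push Not at hL
    obtain ⟨k0, hk0, hk0A⟩ := hL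
    have hex : ∀ k ∈ K, a k ∉ A → ∃ i : Fin N, ¬ Bad v p A x i ∧ x i = a k := by
      intro k hk hkA
      have := ha k hk
      rw [mem_union] at this
      rcases this with h | h
      · exact absurd h hkA
      · rw [mem_image] at h
        obtain ⟨i, hi, hxi⟩ := h
        rw [mem_filter] at hi
        exact ⟨i, hi.2, hxi⟩
    obtain ⟨i0, hi0, hxi0⟩ := hex k0 hk0 hk0A
    let κ : Fin m → Fin N := fun k => if h : k ∈ K ∧ a k ∉ A then (hex k h.1 h.2).choose else i0
    have hκ : ∀ k, (h : k ∈ K ∧ a k ∉ A) → ¬ Bad v p A x (κ k) ∧ x (κ k) = a k := by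
      intro k h
      have : κ k = (hex k h.1 h.2).choose := dif_pos h
      rw [this]
      exact (hex k h.1 h.2).choose_spec
    refine (hκ k0 ⟨hk0, hk0A⟩).1 ?_
    refine ⟨K.filter (fun k => a k ∈ A), K.filter (fun k => ¬ a k ∈ A), a, κ, ?_, ?_, ?_, ?_⟩
    · exact disjoint_filter_filter_not _ _ _
    · intro k hk
      exact (mem_filter.1 hk).2
    · exact ⟨k0, mem_filter.2 ⟨hk0, hk0A⟩, rfl⟩
    · have c1 : ∑ k ∈ K.filter (fun k => ¬ a k ∈ A), (v k : ZMod p) * x (κ k)
          = ∑ k ∈ K.filter (fun k => ¬ a k ∈ A), (v k : ZMod p) * a k := by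
        refine sum_congr rfl fun k hk => ?_
        rw [mem_filter] at hk
        rw [(hκ k hk).2]
      rw [c1, sum_filter_add_sum_filter_not]
      exact hsum1
  · have d1 : (U.filter fun s => ¬ Cov u p ((univ.filter fun i : Fin N => ¬ Bad v p A x i).image x) s) ⊆
        U.filter fun s => ¬ good x s := by
      intro s hs
      rw [mem_filter] at hs ⊢
      refine ⟨hs.1, fun hg => hs.2 ?_⟩
      obtain ⟨ι, hι, hb⟩ := hg
      refine ⟨fun j => x (ι j), fun j => ?_, hι⟩
      exact mem_image_of_mem x (mem_filter.2 ⟨mem_univ _, hb j⟩)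
    have d2 := card_le_card d1
    have d3 : 4 * (U.filter fun s => ¬ good x s).card ≤ U.card := hx
    omega

end Pool.Agent.X121.LF
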